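import Mathlib

set_option autoImplicit false

namespace Pool.Agent.Results.MP_c4e411_nt.BoundFails

theorem result :
    ¬ (∀ n : ℕ, 4 ≤ n → ∀ x : Fin n → ℕ, (∀ i, 0 < x i) → Monotone x →
        (∑ s ∈ Finset.powersetCard 3 (Finset.univ : Finset (Fin n)), ∏ i ∈ s, x i) = ∏ i, x i →
        (12 : ℤ) * (∏ i, x i : ℕ) ≤ 3021 * (n : ℤ) ^ 6 - 77575 * (n : ℤ) ^ 5 + 920361 * (n : ℤ) ^ 4
          - 6235705 * (n : ℤ) ^ 3 + 24764202 * (n : ℤ) ^ 2 - 53664304 * (n : ℤ) + 48986640) := by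
  intro H
  have h := H 11 (by norm_num) ![1, 1, 1, 1, 1, 1, 1, 2, 10, 126, 16177]
    (by decide +kernel) (by decide +kernel) (by decide +kernel)
  have hp : (∏ i, (![1, 1, 1, 1, 1, 1, 1, 2, 10, 126, 16177] : Fin 11 → ℕ) i) = 40766040 := by
    decide +kernel
  rw [hp] at h
  norm_num at h

end Pool.Agent.Results.MP_c4e411_nt.BoundFails
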